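import Pool.Agent.L0h7.KN.Stm

/-! # Project KN, modules MON, GRC, EFC: colimits of sequences -/

set_option autoImplicit false

open CategoryTheory

namespace Pool.Agent.L0h48.KN

open Pool.Agent.L0h7.KN Pool.Agent.Y75.NK

/-- a common later stage -/
theorem ring_stage {D : ℕ ⥤ RingCat.{0}} {B : RingCat.{0}} {c : ∀ i, D.obj i ⟶ B}
    (h : RCol D B c) {ι : Type} (i : ℕ) (a : ι → D.obj i) (s : Finset ι)
    (hs : ∀ x ∈ s, (c i).hom (a x) = 0) :
    ∃ (j : ℕ) (f : i ⟶ j), ∀ x ∈ s, (D.map f).hom (a x) = 0 := by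
  classical
  induction s using Finset.induction_on with
  | empty => exact ⟨i, 𝟙 i, by simp⟩
  | insert x s hx ih =>
    obtain ⟨j₁, f₁, h₁⟩ := ih (fun y hy => hs y (Finset.mem_insert_of_mem hy))
    obtain ⟨j₂, f₂, h₂⟩ := h.inj i (a x) (hs x (Finset.mem_insert_self _ _))
    refine ⟨max j₁ j₂, f₁ ≫ homOfLE (le_max_left _ _), fun y hy => ?_⟩
    rcases Finset.mem_insert.1 hy with rfl | hy
    · have e : f₁ ≫ homOfLE (le_max_left j₁ j₂) = f₂ ≫ homOfLE (le_max_right j₁ j₂) :=
        Subsingleton.elim _ _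
      rw [e, D.map_comp]
      show (D.map (homOfLE (le_max_right j₁ j₂))).hom ((D.map f₂).hom (a y)) = 0
      rw [h₂, map_zero]
    · rw [D.map_comp]
      show (D.map (homOfLE (le_max_left j₁ j₂))).hom ((D.map f₁).hom (a y)) = 0
      rw [h₁ y hy, map_zero]

/-- two elements at a common stage -/
theorem comp_app {D : ℕ ⥤ RingCat.{0}} {B : RingCat.{0}} {c : ∀ i, D.obj i ⟶ B}
    (h : ∀ {i j : ℕ} (f : i ⟶ j), D.map f ≫ c j = c i) {i j : ℕ} (f : i ⟶ j) (a : D.obj i) :
    (c j).hom ((D.map f).hom a) = (c i).hom a := by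
  rw [← h f]
  rfl

theorem t_MON : S_MON := by
  intro M _ D B c h
  have hcomp : ∀ {i j : ℕ} (f : i ⟶ j), (D ⋙ monF M).map f ≫ (monF M).map (c j) =
      (monF M).map (c i) := by
    intro i j f
    rw [Functor.comp_map, ← (monF M).map_comp, h.comp]
  refine ⟨hcomp, ?_, ?_⟩
  · intro b
    induction b using MonoidAlgebra.induction_linear with
    | zero => exact ⟨0, 0, map_zero _⟩
    | add x y hx hy =>
      obtain ⟨i, a, ha⟩ := hx
      obtain ⟨j, b, hb⟩ := hy
      refine ⟨max i j, ((D ⋙ monF M).map (homOfLE (le_max_left i j))).hom a +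
        ((D ⋙ monF M).map (homOfLE (le_max_right i j))).hom b, ?_⟩
      rw [map_add, comp_app hcomp, comp_app hcomp, ha, hb]
      rfl
    | single m r =>
      obtain ⟨i, a, ha⟩ := h.surj r
      refine ⟨i, MonoidAlgebra.single m a, ?_⟩
      show MonoidAlgebra.mapRingHom M (c i).hom (MonoidAlgebra.single m a) = _
      rw [MonoidAlgebra.mapRingHom_single, ha]
  · intro i a ha
    change MonoidAlgebra (D.obj i) M at a
    have ha' : MonoidAlgebra.mapRingHom M (c i).hom a = 0 := ha
    obtain ⟨j, f, hf⟩ := ring_stage h i (fun m => a.coeff m) a.coeff.support (by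
      intro m _
      have := congrArg (fun z : MonoidAlgebra B M => z.coeff m) ha'
      simp only [MonoidAlgebra.coeff_mapRingHom] at this
      exact this)
    refine ⟨j, f, ?_⟩
    show MonoidAlgebra.mapRingHom M (D.map f).hom a = 0
    ext m
    rw [MonoidAlgebra.coeff_mapRingHom]
    by_cases hm : m ∈ a.coeff.support
    · exact hf m hm
    · rw [Finsupp.notMem_support_iff.1 hm, map_zero]
      rfl

/-- a common later stage -/
theorem grp_stage {D : ℕ ⥤ GrpCat.{0}} {B : GrpCat.{0}} {c : ∀ i, D.obj i ⟶ B}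
    (h : GCol D B c) {ι : Type} (i : ℕ) (a : ι → D.obj i) (s : Finset ι)
    (hs : ∀ x ∈ s, (c i).hom (a x) = 1) :
    ∃ (j : ℕ) (f : i ⟶ j), ∀ x ∈ s, (D.map f).hom (a x) = 1 := by
  classical
  induction s using Finset.induction_on with
  | empty => exact ⟨i, 𝟙 i, by simp⟩
  | insert x s hx ih =>
    obtain ⟨j₁, f₁, h₁⟩ := ih (fun y hy => hs y (Finset.mem_insert_of_mem hy))
    obtain ⟨j₂, f₂, h₂⟩ := h.inj i (a x) (hs x (Finset.mem_insert_self _ _))
    refine ⟨max j₁ j₂, f₁ ≫ homOfLE (le_max_left _ _), fun y hy => ?_⟩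
    rcases Finset.mem_insert.1 hy with rfl | hy
    · have e : f₁ ≫ homOfLE (le_max_left j₁ j₂) = f₂ ≫ homOfLE (le_max_right j₁ j₂) :=
        Subsingleton.elim _ _
      rw [e, D.map_comp]
      show (D.map (homOfLE (le_max_right j₁ j₂))).hom ((D.map f₂).hom (a y)) = 1
      rw [h₂, map_one]
    · rw [D.map_comp]
      show (D.map (homOfLE (le_max_left j₁ j₂))).hom ((D.map f₁).hom (a y)) = 1
      rw [h₁ y hy, map_one]

theorem t_GRC : S_GRC := by
  intro R _ D B c h
  classical
  have hcomp : ∀ {i j : ℕ} (f : i ⟶ j), (D ⋙ gr R).map f ≫ (gr R).map (c j) =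
      (gr R).map (c i) := by
    intro i j f
    rw [Functor.comp_map, ← (gr R).map_comp, h.comp]
  refine ⟨hcomp, ?_, ?_⟩
  · intro b
    induction b using MonoidAlgebra.induction_linear with
    | zero => exact ⟨0, 0, map_zero _⟩
    | add x y hx hy =>
      obtain ⟨i, a, ha⟩ := hx
      obtain ⟨j, b, hb⟩ := hy
      refine ⟨max i j, ((D ⋙ gr R).map (homOfLE (le_max_left i j))).hom a +
        ((D ⋙ gr R).map (homOfLE (le_max_right i j))).hom b, ?_⟩
      rw [map_add, comp_app hcomp, comp_app hcomp, ha, hb]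
      rfl
    | single g r =>
      obtain ⟨i, a, ha⟩ := h.surj g
      refine ⟨i, MonoidAlgebra.single a r, ?_⟩
      show MonoidAlgebra.mapDomainRingHom R (c i).hom (MonoidAlgebra.single a r) = _
      rw [MonoidAlgebra.mapDomainRingHom_apply, MonoidAlgebra.mapDomain_single, ha]
  · intro i a ha
    change MonoidAlgebra R (D.obj i) at a
    have ha' : MonoidAlgebra.mapDomainRingHom R (c i).hom a = 0 := ha
    obtain ⟨j, f, hf⟩ := grp_stage h i (fun p : D.obj i × D.obj i => p.1 * p.2⁻¹)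
      ((a.coeff.support ×ˢ a.coeff.support).filter fun p => (c i).hom (p.1 * p.2⁻¹) = 1) (by
      intro p hp
      exact (Finset.mem_filter.1 hp).2)
    refine ⟨j, f, ?_⟩
    show MonoidAlgebra.mapDomainRingHom R (D.map f).hom a = 0
    rw [MonoidAlgebra.mapDomainRingHom_apply] at ha' ⊢
    have hcc : ∀ x, (c j).hom ((D.map f).hom x) = (c i).hom x := by
      intro x
      rw [← h.comp f]
      rfl
    set S : Set (D.obj j) := (D.map f).hom '' (a.coeff.support : Set (D.obj i)) with hS
    have hinj : Set.InjOn (c j).hom S := by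
      rintro _ ⟨x, hx, rfl⟩ _ ⟨y, hy, rfl⟩ hxy
      rw [hcc, hcc] at hxy
      have h1 : (c i).hom (x * y⁻¹) = 1 := by
        rw [map_mul, map_inv, hxy, mul_inv_cancel]
      have h2 := hf (x, y) (by
        rw [Finset.mem_filter, Finset.mem_product]
        exact ⟨⟨hx, hy⟩, h1⟩)
      simp only [map_mul, map_inv] at h2
      exact mul_inv_eq_one.1 h2
    have h3 := Finsupp.mapDomain_injOn (M := R) S hinj
    have h4 : (a.coeff.mapDomain (D.map f).hom) = 0 := by
      apply h3
      · show ((a.coeff.mapDomain (D.map f).hom).support : Set (D.obj j)) ⊆ S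
        intro y hy
        have := Finsupp.mapDomain_support hy
        rw [Finset.mem_image] at this
        obtain ⟨x, hx, rfl⟩ := this
        exact ⟨x, hx, rfl⟩
      · show ((0 : D.obj j →₀ R).support : Set (D.obj j)) ⊆ S
        simp
      · rw [Finsupp.mapDomain_zero, ← Finsupp.mapDomain_comp]
        have h5 : ((c j).hom ∘ (D.map f).hom) = (c i).hom := by
          ext x
          exact hcc x
        rw [h5]
        have h6 := congrArg MonoidAlgebra.coeff ha'
        rw [MonoidAlgebra.coeff_mapDomain] at h6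
        exact h6
    apply MonoidAlgebra.coeff_injective
    rw [MonoidAlgebra.coeff_mapDomain, h4]
    rfl

theorem tz_col {D : ℕ ⥤ GrpCat.{0}} {B : GrpCat.{0}} {c : ∀ i, D.obj i ⟶ B}
    (h : GCol D B c) : GCol (D ⋙ tz) (tz.obj B) (fun i => tz.map (c i)) := by
  refine ⟨?_, ?_, ?_⟩
  · intro i j f
    rw [Functor.comp_map, ← tz.map_comp, h.comp]
  · rintro ⟨z, b⟩
    obtain ⟨i, a, ha⟩ := h.surj b
    refine ⟨i, (z, a), ?_⟩
    exact Prod.ext rfl ha
  · rintro i ⟨z, a⟩ ha
    have h1 : z = 1 := congrArg Prod.fst ha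
    have h2 : (c i).hom a = 1 := congrArg Prod.snd ha
    obtain ⟨j, f, hf⟩ := h.inj i a h2
    exact ⟨j, f, Prod.ext h1 hf⟩

theorem t_EFC : S_EFC := by
  intro m
  induction m with
  | zero =>
    intro D B c h
    exact ⟨h.comp, h.surj, h.inj⟩
  | succ m ih =>
    intro D B c h
    have := ih (D ⋙ tz) (tz.obj B) (fun i => tz.map (c i)) (tz_col h)
    exact ⟨this.comp, this.surj, this.inj⟩

end Pool.Agent.L0h48.KN
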