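import Pool.Agent.L0h7.KN.Stm

/-! # Project KN, module SUB: local embeddings and maps of free groups -/

set_option autoImplicit false

open CategoryTheory

namespace Pool.Agent.L0h48.KN

open Pool.Agent.L0h7.KN

theorem t_SUB : S_SUB := by
  intro C G hG hLE n f E L
  classical
  set N := L * L + L + 1 + ∑ w ∈ E, w.toWord.length with hN
  have hfin : {w : FreeGroup (Fin n) | w.toWord.length ≤ N}.Finite := by
    have h1 := List.finite_length_le (Fin n × Bool) N
    exact h1.preimage (f := FreeGroup.toWord) FreeGroup.toWord_injective.injOn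
  obtain ⟨Q, φ, hQ, hm, hi⟩ := hLE (hfin.toFinset.image fun w => f.hom w)
  set Ef : Finset G := hfin.toFinset.image fun w => f.hom w with hEf
  have hmem : ∀ w : FreeGroup (Fin n), w.toWord.length ≤ N → f.hom w ∈ Ef := by
    intro w hw
    rw [hEf, Finset.mem_image]
    exact ⟨w, hfin.mem_toFinset.2 hw, rfl⟩
  have h1E : (1 : G) ∈ Ef := by
    have := hmem 1 (by simp)
    rwa [map_one] at this
  have hφ1 : φ 1 = 1 := by
    have h2 := hm 1 h1E 1 h1E
    rw [mul_one] at h2
    exact left_eq_mul.1 h2
  let g₀ : FreeGroup (Fin n) →* Q := FreeGroup.lift fun i => φ (f.hom (FreeGroup.of i))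
  let g : fm n ⟶ Q := GrpCat.ofHom g₀
  have hg : ∀ w : FreeGroup (Fin n), g.hom w = g₀ w := fun w => rfl
  -- letters
  have hlen1 : ∀ i : Fin n, (FreeGroup.of i).toWord.length ≤ N := by
    intro i
    rw [FreeGroup.toWord_of]
    simp [hN]
    omega
  have hlen2 : ∀ i : Fin n, ((FreeGroup.of i)⁻¹).toWord.length ≤ N := by
    intro i
    have h1 : ((FreeGroup.of i)⁻¹).norm = (FreeGroup.of i).norm := FreeGroup.norm_inv_eq
    have h2 := hlen1 i
    unfold FreeGroup.norm at h1
    rw [h1]
    exact h2
  have hinv : ∀ i : Fin n, φ (f.hom (FreeGroup.of i)⁻¹) = (φ (f.hom (FreeGroup.of i)))⁻¹ := by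
    intro i
    have h1 := hm _ (hmem _ (hlen1 i)) _ (hmem _ (hlen2 i))
    rw [← map_mul, mul_inv_cancel, map_one, hφ1] at h1
    exact (inv_eq_of_mul_eq_one_right h1.symm).symm
  -- all words
  have hall : ∀ l : List (Fin n × Bool), l.length ≤ N →
      g₀ (FreeGroup.mk l) = φ (f.hom (FreeGroup.mk l)) := by
    intro l
    induction l with
    | nil =>
      intro _
      rw [← FreeGroup.one_eq_mk, map_one, map_one, hφ1]
    | cons x l ih =>
      intro hl
      rw [List.length_cons] at hl
      have h1 : FreeGroup.mk (x :: l) = FreeGroup.mk [x] * FreeGroup.mk l := by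
        rw [FreeGroup.mul_mk]; rfl
      have h2 : (FreeGroup.mk l).toWord.length ≤ N :=
        (FreeGroup.norm_mk_le (L₁ := l)).trans (by omega)
      have h3 : g₀ (FreeGroup.mk [x]) = φ (f.hom (FreeGroup.mk [x])) ∧
          (FreeGroup.mk [x]).toWord.length ≤ N := by
        obtain ⟨i, b⟩ := x
        cases b
        · have h4 : FreeGroup.mk [(i, false)] = (FreeGroup.of i)⁻¹ := by
            rw [FreeGroup.of, FreeGroup.inv_mk]; rfl
          rw [h4, hinv, map_inv]
          refine ⟨?_, hlen2 i⟩
          congr 1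
          exact FreeGroup.lift_apply_of
        · have h4 : FreeGroup.mk [(i, true)] = FreeGroup.of i := rfl
          rw [h4]
          exact ⟨FreeGroup.lift_apply_of, hlen1 i⟩
      rw [h1, map_mul, map_mul, ih (by omega), h3.1,
        hm _ (hmem _ h3.2) _ (hmem _ h2)]
  have key : ∀ w : FreeGroup (Fin n), w.toWord.length ≤ N → (f.hom w = 1 ↔ g.hom w = 1) := by
    intro w hw
    have h1 := hall w.toWord hw
    rw [FreeGroup.mk_toWord] at h1
    rw [hg, h1]
    constructor
    · intro h
      rw [h, hφ1]
    · intro h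
      exact hi _ (hmem w hw) _ h1E (by rw [h, hφ1])
  have hLN : L ≤ N := by rw [hN]; omega
  refine ⟨Q, g, hQ, ?_, ?_, ?_⟩
  · intro w hw k hk hkL hp
    have hnorm : ∀ k : ℕ, (w ^ k).toWord.length ≤ k * w.toWord.length := by
      intro k
      induction k with
      | zero => simp
      | succ k ih =>
        rw [pow_succ]
        have := FreeGroup.norm_mul_le (w ^ k) w
        unfold FreeGroup.norm at this
        refine this.trans ?_
        rw [Nat.succ_mul]
        omega
    have h1 : (w ^ k).toWord.length ≤ N := by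
      refine (hnorm k).trans ?_
      have : k * w.toWord.length ≤ L * L := Nat.mul_le_mul hkL hw
      rw [hN]
      omega
    rw [← map_pow] at hp
    have h2 := (key _ h1).2 hp
    rw [map_pow] at h2
    exact (key w (hw.trans hLN)).1 (hG _ k hk h2)
  · ext w
    unfold rels
    constructor
    · rintro ⟨h1, h2⟩
      exact ⟨h1, (key w (h1.trans hLN)).2 h2⟩
    · rintro ⟨h1, h2⟩
      exact ⟨h1, (key w (h1.trans hLN)).1 h2⟩
  · intro w hw
    apply key
    have : w.toWord.length ≤ ∑ w ∈ E, w.toWord.length :=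
      Finset.single_le_sum (f := fun w => w.toWord.length) (fun _ _ => Nat.zero_le _) hw
    rw [hN]
    omega

end Pool.Agent.L0h48.KN
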